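import Mathlib

set_option autoImplicit false

namespace Pool.Agent.H448.SM

open Finset Polynomial

/-- A rational functional which does not vanish at an element of infinite order. -/
theorem exists_functional {A : Type*} [AddCommGroup A] (x : A)
    (hx : ∀ n : ℤ, n • x = 0 → n = 0) : ∃ f : A →+ ℚ, f x = 1 := by
  have hinj : Function.Injective (zmultiplesHom A x) := by
    rw [injective_iff_map_eq_zero]
    intro n hn
    exact hx n (by simpa using hn)
  obtain ⟨h, hh⟩ := (Module.Baer.of_divisible ℚ).extension_property_addMonoidHom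
    (zmultiplesHom A x) hinj (Int.castAddHom ℚ)
  refine ⟨h, ?_⟩
  have := DFunLike.congr_fun hh 1
  simpa using this

/-- The combinatorial core of the necessity. -/
theorem core {G : Type*} [Group G] [Fintype G] {d : ℕ} (b : Fin d → ℤ) (σ : Fin d → G)
    (n : G → ℤ) (hn : n ≠ 0) (h : ∀ g, ∑ j, b j * n (g * σ j) = 0) :
    (∀ i, |b i| ≤ ∑ j ∈ univ.erase i, |b j|) ∧
      ∀ (i : Fin d) (q : ℤ), (∀ j, j ≠ i → q ∣ b j) → q ∣ b i := by
  classical
  constructor
  · intro i
    set S : ℤ := ∑ g, |n g| with hS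
    have hSpos : 0 < S := by
      obtain ⟨g, hg⟩ := Function.ne_iff.1 hn
      exact Finset.sum_pos' (fun g _ => abs_nonneg _) ⟨g, mem_univ _, abs_pos.2 hg⟩
    have hSj : ∀ j, ∑ g, |n (g * σ j)| = S := fun j =>
      Fintype.sum_bijective (fun g => g * σ j) (Group.mulRight_bijective (σ j)) _ _ (fun _ => rfl)
    have h1 : ∀ g, |b i| * |n (g * σ i)| ≤ ∑ j ∈ univ.erase i, |b j| * |n (g * σ j)| := by
      intro g
      have h2 := h g
      rw [← Finset.add_sum_erase univ _ (mem_univ i)] at h2
      have h3 : b i * n (g * σ i) = - ∑ j ∈ univ.erase i, b j * n (g * σ j) := by linarith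
      rw [← abs_mul, h3, abs_neg]
      refine (Finset.abs_sum_le_sum_abs _ _).trans (le_of_eq ?_)
      exact Finset.sum_congr rfl fun j _ => abs_mul _ _
    have h4 : |b i| * S ≤ (∑ j ∈ univ.erase i, |b j|) * S := by
      calc |b i| * S = ∑ g, |b i| * |n (g * σ i)| := by rw [← Finset.mul_sum, hSj]
        _ ≤ ∑ g, ∑ j ∈ univ.erase i, |b j| * |n (g * σ j)| := Finset.sum_le_sum fun g _ => h1 g
        _ = (∑ j ∈ univ.erase i, |b j|) * S := by
            rw [Finset.sum_comm, Finset.sum_mul]
            exact Finset.sum_congr rfl fun j _ => by rw [← Finset.mul_sum, hSj]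
    exact le_of_mul_le_mul_right h4 hSpos
  · intro i q hq
    set c : ℤ := univ.gcd n with hc
    have hc0 : c ≠ 0 := by
      intro h0
      rw [hc, Finset.gcd_eq_zero_iff] at h0
      exact hn (funext fun g => h0 g (mem_univ _))
    have hdvd : ∀ g, c ∣ n g := fun g => Finset.gcd_dvd (mem_univ g)
    have h1 : ∀ g, q * c ∣ b i * n g := by
      intro g
      have h2 := h (g * (σ i)⁻¹)
      rw [← Finset.add_sum_erase univ _ (mem_univ i), inv_mul_cancel_right] at h2
      have h3 : b i * n g = - ∑ j ∈ univ.erase i, b j * n (g * (σ i)⁻¹ * σ j) := by linarith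
      rw [h3, dvd_neg]
      exact Finset.dvd_sum fun j hj => mul_dvd_mul (hq j (Finset.ne_of_mem_erase hj)) (hdvd _)
    have h2 : q * c ∣ univ.gcd fun g => b i * n g := Finset.dvd_gcd fun g _ => h1 g
    rw [Finset.gcd_mul_left, ← hc] at h2
    have h3 : q * c ∣ b i * c := by
      refine h2.trans ?_
      exact mul_dvd_mul_right (normalize_dvd_iff.2 dvd_rfl) _
    exact Int.dvd_of_mul_dvd_mul_right hc0 h3

/-- A multiplicative relation between conjugates of a number that is not a root of unity. -/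
theorem necessity {d : ℕ} (b : Fin d → ℤ) (x : ℂ) (c : Fin d → ℂ) (hx0 : x ≠ 0)
    (hx : IsAlgebraic ℚ x) (hc : ∀ i, aeval (c i) (minpoly ℚ x) = 0)
    (hrel : ∏ i, c i ^ b i = 1) (hroot : ¬ ∃ n : ℕ, 0 < n ∧ x ^ n = 1) :
    (∀ i, |b i| ≤ ∑ j ∈ univ.erase i, |b j|) ∧
      ∀ (i : Fin d) (q : ℤ), (∀ j, j ≠ i → q ∣ b j) → q ∣ b i := by
  classical
  have hint : IsIntegral ℚ x := hx.isIntegral
  have hne : minpoly ℚ x ≠ 0 := minpoly.ne_zero hint
  let E : IntermediateField ℚ ℂ := IntermediateField.adjoin ℚ ((minpoly ℚ x).rootSet ℂ)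
  have hsplit : ((minpoly ℚ x).map (algebraMap ℚ ℂ)).Splits := IsAlgClosed.splits _
  have hsf : (minpoly ℚ x).IsSplittingField ℚ E :=
    IntermediateField.adjoin_rootSet_isSplittingField hsplit
  have hnormal : Normal ℚ E := Normal.of_isSplittingField (minpoly ℚ x)
  have hfd : FiniteDimensional ℚ E := IsSplittingField.finiteDimensional E (minpoly ℚ x)
  have hmem : ∀ z : ℂ, aeval z (minpoly ℚ x) = 0 → z ∈ E := fun z hz =>
    IntermediateField.subset_adjoin _ _ ((mem_rootSet_of_ne hne).2 hz)
  let x' : E := ⟨x, hmem x (minpoly.aeval ℚ x)⟩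
  let c' : Fin d → E := fun i => ⟨c i, hmem _ (hc i)⟩
  have hmin : minpoly ℚ x' = minpoly ℚ x :=
    (minpoly.algHom_eq E.val E.val.injective x').symm
  have hg : ∀ i, ∃ σ : Gal(E/ℚ), σ x' = c' i := by
    intro i
    apply minpoly.exists_algEquiv_of_root'
    · exact (IsIntegral.of_finite ℚ x').isAlgebraic
    · rw [hmin]
      have h1 : E.val (aeval (c' i) (minpoly ℚ x)) = 0 := by
        rw [← Polynomial.aeval_algHom_apply]
        exact hc i
      exact (map_eq_zero E.val).1 h1
  choose σ hσ using hg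
  have hx0' : x' ≠ 0 := fun h => hx0 (congrArg Subtype.val h)
  let u : Eˣ := Units.mk0 x' hx0'
  obtain ⟨f, hf⟩ := exists_functional (Additive.ofMul u) (by
    intro n hn
    by_contra hn0
    apply hroot
    have h1 : u ^ n = 1 := by
      rw [← ofMul_zpow] at hn
      exact Additive.ofMul.injective hn
    have h2 : u ^ n.natAbs = 1 := by
      rcases Int.natAbs_eq n with h | h
      · rw [h, zpow_natCast] at h1; exact h1
      · rw [h, zpow_neg, zpow_natCast, inv_eq_one] at h1; exact h1
    refine ⟨n.natAbs, Int.natAbs_pos.2 hn0, ?_⟩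
    have h3 := congrArg (fun v : Eˣ => ((v : E) : ℂ)) h2
    simpa [u, x'] using h3)
  let F : Gal(E/ℚ) → ℚ := fun g => f (Additive.ofMul (Units.map (g : E →* E) u))
  -- the relation
  have hrelF : ∀ g, ∑ j, (b j : ℚ) * F (g * σ j) = 0 := by
    intro g
    have h1 : ∏ j, (Units.map (g * σ j : Gal(E/ℚ)) u : Eˣ) ^ b j = 1 := by
      have h2 : ∏ j, c' j ^ b j = 1 := by
        apply Subtype.val_injective
        push_cast
        exact hrel
      have h3 := congrArg g h2
      rw [map_prod, map_one] at h3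
      apply Units.ext
      rw [Units.coe_prod, Units.val_one, ← h3]
      apply Finset.prod_congr rfl
      intro j _
      rw [Units.val_zpow_eq_zpow_val, map_zpow₀, ← hσ j]
      rfl
    have h4 := congrArg (fun v => f (Additive.ofMul v)) h1
    simp only [ofMul_prod, ofMul_zpow, map_sum, map_zsmul, ofMul_one, map_zero] at h4
    rw [← h4]
    apply Finset.sum_congr rfl
    intro j _
    rw [zsmul_eq_mul]
  -- clear denominators
  obtain ⟨D, hD0, hD⟩ : ∃ D : ℤ, D ≠ 0 ∧ ∀ g, ∃ m : ℤ, (m : ℚ) = D * F g := by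
    refine ⟨∏ g, ((F g).den : ℤ), ?_, ?_⟩
    · rw [Finset.prod_ne_zero_iff]
      intro g _
      exact_mod_cast (F g).den_nz
    · intro g
      refine ⟨(∏ g' ∈ univ.erase g, ((F g').den : ℤ)) * (F g).num, ?_⟩
      rw [← Finset.mul_prod_erase univ _ (mem_univ g)]
      push_cast
      have h1 : ((F g).den : ℚ) * F g = (F g).num := by
        rw [mul_comm]; exact Rat.mul_den_eq_num _
      rw [← h1]; ring
  choose n hn using hD
  apply core b σ n
  · intro h0
    have h1 := hn 1
    rw [h0] at h1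
    have h2 : F 1 = 1 := by
      have : (Units.map ((1 : Gal(E/ℚ)) : E →* E) u) = u := by
        apply Units.ext; rfl
      change f (Additive.ofMul (Units.map ((1 : Gal(E/ℚ)) : E →* E) u)) = 1
      rw [this, hf]
    rw [h2] at h1
    simp at h1
    exact hD0 (by exact_mod_cast h1.symm)
  · intro g
    have h1 := hrelF g
    have h2 : ((∑ j, b j * n (g * σ j) : ℤ) : ℚ) = 0 := by
      push_cast
      simp only [hn]
      have : ∑ j, (b j : ℚ) * (D * F (g * σ j)) = D * ∑ j, (b j : ℚ) * F (g * σ j) := by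
        rw [Finset.mul_sum]
        exact Finset.sum_congr rfl fun j _ => by ring
      rw [this, h1, mul_zero]
    exact_mod_cast h2

end Pool.Agent.H448.SM
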