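import Mathlib
import Pool.Agent.H448.G.R_seed8.Helper259.Selmer.Gal

set_option autoImplicit false

namespace Pool.Agent.H448.SM

open Finset Polynomial NumberField Pool.Agent.Helper259

lemma exists_L (f : ℚ[X]) : ∃ (L : Type) (_ : Field L) (_ : NumberField L),
    IsSplittingField ℚ L f := by
  have h := IsSplittingField.splittingField f
  have hcz : CharZero f.SplittingField := inferInstance
  have e : (DivisionRing.toRatAlgebra : Algebra ℚ f.SplittingField) =
      SplittingField.instAlgebra_1 f := Subsingleton.elim _ _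
  rw [← e] at h
  have hfd : FiniteDimensional ℚ f.SplittingField :=
    IsSplittingField.finiteDimensional f.SplittingField f
  have hNL : NumberField f.SplittingField :=
    { to_charZero := inferInstance
      to_finiteDimensional := hfd }
  exact ⟨f.SplittingField, inferInstance, hNL, h⟩

/-- Points with given distances to `0` and `-1`. -/
lemma two_circles (c : ℝ) (p : ℕ) (z z' : ℂ) (hz : ‖z‖ = c) (hz' : ‖z'‖ = c)
    (h : z ^ p = z + 1) (h' : z' ^ p = z' + 1) : z' = z ∨ z' = (starRingEnd ℂ) z := by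
  have h1 : ‖z + 1‖ = ‖z' + 1‖ := by rw [← h, ← h', norm_pow, norm_pow, hz, hz']
  have h2 : z.re = z'.re := by
    have e1 := Complex.sq_norm (z + 1)
    have e2 := Complex.sq_norm (z' + 1)
    have e3 := Complex.sq_norm z
    have e4 := Complex.sq_norm z'
    rw [Complex.normSq_apply] at e1 e2 e3 e4
    simp only [Complex.add_re, Complex.one_re, Complex.add_im, Complex.one_im] at e1 e2
    rw [h1] at e1
    rw [hz] at e3
    rw [hz'] at e4
    nlinarith
  have h3 : z.im ^ 2 = z'.im ^ 2 := by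
    have e3 := Complex.sq_norm z
    have e4 := Complex.sq_norm z'
    rw [Complex.normSq_apply, hz] at e3
    rw [Complex.normSq_apply, hz', ← h2] at e4
    nlinarith
  rcases sq_eq_sq_iff_eq_or_eq_neg.1 h3 with h4 | h4
  · left
    exact Complex.ext h2.symm h4.symm
  · right
    apply Complex.ext
    · rw [Complex.conj_re]; exact h2.symm
    · rw [Complex.conj_im, h4, neg_neg]

lemma prod_zpow_aux {ι G : Type*} [CommGroup G] (x : G) (s : Finset ι) (f : ι → ℤ) :
    x ^ (∑ i ∈ s, f i) = ∏ i ∈ s, x ^ f i := by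
  classical
  induction s using Finset.induction_on with
  | empty => simp
  | insert a s ha ih => rw [Finset.sum_insert ha, Finset.prod_insert ha, zpow_add, ih]

/-- Multiplicative relations from permutations. -/
theorem mult_of_perm {d N : ℕ} (b : Fin d → ℤ) (π : Fin d → Equiv.Perm (Fin N)) (v : Fin N → ℤ)
    (hv : v ≠ 0) (h : ∀ k, ∑ i, b i * v (π i k) = 0) :
    ∃ α : Fin d → ℂ, (∀ i, IsIntegral ℤ (α i)) ∧ (∀ i, IsIntegral ℤ (α i)⁻¹) ∧ (∀ i, α i ≠ 0) ∧
      (∀ i j, minpoly ℚ (α i) = minpoly ℚ (α j)) ∧ ∏ i, α i ^ b i = 1 ∧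
      ∀ i, ∀ m : ℕ, 0 < m → α i ^ m ≠ 1 := by
  classical
  obtain ⟨p, hpN, hp⟩ := Nat.exists_infinite_primes (N + 5)
  have hn2 := hp.two_le
  obtain ⟨L, iL, hNL, hs⟩ := exists_L (X ^ p - X - 1 : ℚ[X])
  have hirr := X_pow_sub_X_sub_one_irreducible_rat hp.one_lt.ne'
  have hG : IsGalois ℚ L :=
    IsGalois.of_separable_splitting_field (p := (X ^ p - X - 1 : ℚ[X])) hirr.separable
  have hb := Selmer.bijective (L := L) hp hs
  have hF : (Selmer.F p).map (algebraMap ℤ L) = (X ^ p - X - 1 : ℚ[X]).map (algebraMap ℚ L) := by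
    rw [Selmer.F_map]; simp
  have hsF : ((Selmer.F p).map (algebraMap ℤ L)).Splits := by rw [hF]; exact hs.splits
  have hcard := Selmer.card_rootSet_int hp.two_le hsF
  set R := (Selmer.F p).rootSet (𝓞 L) with hR
  -- the roots
  have hroot : ∀ r : R, ((r : 𝓞 L) : 𝓞 L) ^ p = r + 1 := by
    intro r
    have h1 := (mem_rootSet'.mp r.2).2
    have h2 : (r : 𝓞 L) ^ p - r - 1 = 0 := by
      simpa [Selmer.F] using h1
    linear_combination h2
  have hunit : ∀ r : R, IsUnit (r : 𝓞 L) := by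
    intro r
    refine IsUnit.of_mul_eq_one ((r : 𝓞 L) ^ (p - 1) - 1) ?_
    have h1 := hroot r
    have h2 : (r : 𝓞 L) * (r : 𝓞 L) ^ (p - 1) = (r : 𝓞 L) ^ p := by
      rw [← pow_succ']
      congr 1
      omega
    rw [mul_sub, h2, h1]; ring
  choose u hu using hunit
  -- the Galois action on units
  have hact : ∀ (g : Gal(L/ℚ)) (r : R), (((u (g • r) : (𝓞 L)ˣ) : 𝓞 L) : L) =
      g (((u r : (𝓞 L)ˣ) : 𝓞 L) : L) := by
    intro g r
    rw [hu, hu]
    rfl
  -- embedding
  obtain ⟨e⟩ : Nonempty (Fin N ↪ R) := by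
    apply Function.Embedding.nonempty_of_card_le
    rw [hcard, Fintype.card_fin]
    omega
  set w : R → ℤ := Function.extend e v 0 with hw
  have hwe : ∀ k, w (e k) = v k := fun k => e.injective.extend_apply v 0 k
  have hw0 : ∀ r, (¬ ∃ k, e k = r) → w r = 0 := by
    intro r hr
    rw [hw]
    exact Function.extend_apply' v (0 : R → ℤ) r hr
  set π' : Fin d → Equiv.Perm R := fun i => (π i).viaEmbedding e with hπ'
  have hrel : ∀ r : R, ∑ i, b i * w (π' i r) = 0 := by
    intro r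
    by_cases hr : ∃ k, e k = r
    · obtain ⟨k, rfl⟩ := hr
      rw [← h k]
      apply Finset.sum_congr rfl
      intro i _
      rw [hπ']
      simp only
      rw [Equiv.Perm.viaEmbedding_apply, hwe]
    · apply Finset.sum_eq_zero
      intro i _
      have : π' i r = r := by
        rw [hπ']
        simp only
        exact Equiv.Perm.viaEmbedding_apply_of_notMem _ _ _ (fun ⟨k, hk⟩ => hr ⟨k, hk⟩)
      rw [this, hw0 r hr, mul_zero]
  -- automorphisms
  have hsurj := hb.2
  have hg : ∀ τ : Equiv.Perm R, ∃ g : Gal(L/ℚ), ∀ r : R, g • r = τ r := by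
    intro τ
    obtain ⟨g, hg⟩ := hsurj τ
    exact ⟨g, fun r => DFunLike.congr_fun hg r⟩
  let γ : (Equiv.Perm R) → (𝓞 L)ˣ := fun τ => ∏ r, u r ^ w (τ r)
  have hγ : ∀ (g : Gal(L/ℚ)) (τ ρ : Equiv.Perm R), (∀ r, g • r = τ r) →
      g (((γ ρ : (𝓞 L)ˣ) : 𝓞 L) : L) = (((γ (ρ * τ⁻¹) : (𝓞 L)ˣ) : 𝓞 L) : L) := by
    intro g τ ρ hgτ
    have h1 : ∀ ρ' : Equiv.Perm R, (((γ ρ' : (𝓞 L)ˣ) : 𝓞 L) : L) =
        ∏ r, (((u r : (𝓞 L)ˣ) : 𝓞 L) : L) ^ w (ρ' r) := by
      intro ρ'
      have h2 : Units.map (algebraMap (𝓞 L) L : 𝓞 L →* L) (γ ρ') =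
          ∏ r, Units.map (algebraMap (𝓞 L) L : 𝓞 L →* L) (u r) ^ w (ρ' r) := by
        rw [map_prod]
        exact Finset.prod_congr rfl fun r _ => map_zpow _ _ _
      have h3 := congrArg (Units.val) h2
      rw [Units.coe_prod] at h3
      simp only [Units.val_zpow_eq_zpow_val, Units.coe_map] at h3
      exact h3
    rw [h1, h1, map_prod]
    apply Fintype.prod_bijective (fun r => τ r) τ.bijective
    intro r
    rw [map_zpow₀, ← hact, hgτ, Equiv.Perm.mul_apply]
    congr 2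
    exact congrArg ρ (τ.symm_apply_apply r).symm
  let φ : L →+* ℂ := (Classical.arbitrary (L →+* ℂ))
  -- two roots with different absolute values
  obtain ⟨r1, r2, hr12⟩ : ∃ r1 r2 : R, ‖φ ((r1 : 𝓞 L) : L)‖ ≠ ‖φ ((r2 : 𝓞 L) : L)‖ := by
    by_contra hall
    push Not at hall
    have hroot' : ∀ r : R, (φ ((r : 𝓞 L) : L)) ^ p = φ ((r : 𝓞 L) : L) + 1 := by
      intro r
      have h1 := congrArg (fun x : 𝓞 L => φ (x : L)) (hroot r)
      simpa using h1
    obtain ⟨r0⟩ : Nonempty R := by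
      rw [← Fintype.card_pos_iff, hcard]; omega
    have h1 : ∀ r : R, φ ((r : 𝓞 L) : L) ∈ ({φ ((r0 : 𝓞 L) : L),
        (starRingEnd ℂ) (φ ((r0 : 𝓞 L) : L))} : Finset ℂ) := by
      intro r
      rw [Finset.mem_insert, Finset.mem_singleton]
      exact two_circles _ p _ _ rfl (hall r r0) (hroot' r0) (hroot' r)
    have h2 := Finset.card_le_card_of_injOn (s := (univ : Finset R)) (fun r => φ ((r : 𝓞 L) : L))
      (fun r _ => h1 r) (by
        intro r _ r' _ hrr
        have h3 := φ.injective hrr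
        exact Subtype.ext (RingOfIntegers.ext h3))
    rw [Finset.card_univ, hcard] at h2
    have h3 := h2.trans Finset.card_le_two
    omega
  have hr12' : r1 ≠ r2 := fun h => hr12 (by rw [h])
  -- no torsion
  have hnt : ∀ m : ℕ, 0 < m → ∀ τ : Equiv.Perm R, (γ τ) ^ m ≠ 1 := by
    intro m hm τ hτ
    -- all the conjugates
    have hall : ∀ ρ : Equiv.Perm R, (γ ρ) ^ m = 1 := by
      intro ρ
      obtain ⟨g, hg1⟩ := hg (ρ⁻¹ * τ)
      have h1 := hγ g (ρ⁻¹ * τ) τ hg1
      have h2 : τ * (ρ⁻¹ * τ)⁻¹ = ρ := by group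
      rw [h2] at h1
      apply Units.ext
      apply RingOfIntegers.ext
      have h3 := congrArg (fun x : (𝓞 L)ˣ => g ((x : 𝓞 L) : L)) hτ
      simp only [Units.val_pow_eq_pow_val, map_pow, Units.val_one, map_one] at h3 ⊢
      rw [h1] at h3
      exact h3
    set ℓ : R → ℝ := fun r => Real.log ‖φ ((r : 𝓞 L) : L)‖ with hℓ
    have hne0 : ∀ r : R, φ ((r : 𝓞 L) : L) ≠ 0 := by
      intro r h0
      have h1 : ((r : 𝓞 L) : L) = 0 := (map_eq_zero φ).1 h0
      have h2 := (u r).ne_zero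
      rw [hu] at h2
      exact h2 (RingOfIntegers.ext h1)
    have hlog : ∀ ρ : Equiv.Perm R, ∑ r, (w (ρ r) : ℝ) * ℓ r = 0 := by
      intro ρ
      have h1 := congrArg (fun x : (𝓞 L)ˣ => Real.log ‖φ ((x : 𝓞 L) : L)‖) (hall ρ)
      simp only [Units.val_pow_eq_pow_val, map_pow, Units.val_one, map_one, norm_one,
        Real.log_one, norm_pow, Real.log_pow] at h1
      have h2 : Real.log ‖φ (((γ ρ : (𝓞 L)ˣ) : 𝓞 L) : L)‖ = ∑ r, (w (ρ r) : ℝ) * ℓ r := by
        have h3 : φ (((γ ρ : (𝓞 L)ˣ) : 𝓞 L) : L) = ∏ r : R, φ ((r : 𝓞 L) : L) ^ w (ρ r) := by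
          have h2 : Units.map ((φ.comp (algebraMap (𝓞 L) L) : 𝓞 L →+* ℂ) : 𝓞 L →* ℂ) (γ ρ) =
              ∏ r, Units.map ((φ.comp (algebraMap (𝓞 L) L) : 𝓞 L →+* ℂ) : 𝓞 L →* ℂ) (u r) ^
                w (ρ r) := by
            rw [map_prod]
            exact Finset.prod_congr rfl fun r _ => map_zpow _ _ _
          have h3 := congrArg (Units.val) h2
          rw [Units.coe_prod] at h3
          simp only [Units.val_zpow_eq_zpow_val, Units.coe_map, hu] at h3
          exact h3
        rw [h3, norm_prod, Real.log_prod (fun r _ => norm_ne_zero_iff.2 (zpow_ne_zero _ (hne0 r)))]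
        apply Finset.sum_congr rfl
        intro r _
        rw [norm_zpow, Real.log_zpow]
      rw [← h2]
      have hm' : (m : ℝ) ≠ 0 := by exact_mod_cast hm.ne'
      exact (mul_eq_zero.1 h1).resolve_left hm'
    -- a place with w ≠ 0 and one with w = 0
    obtain ⟨k, hk⟩ := Function.ne_iff.1 hv
    obtain ⟨r0, hr0⟩ : ∃ r0 : R, ¬ ∃ k, e k = r0 := by
      by_contra hall2
      push Not at hall2
      have h1 := Fintype.card_le_of_surjective e hall2
      rw [hcard, Fintype.card_fin] at h1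
      omega
    have hwa : w (e k) ≠ w r0 := by
      rw [hwe, hw0 r0 hr0]; exact hk
    have hab : e k ≠ r0 := fun h => hwa (by rw [h])
    obtain ⟨ρ, hρ1, hρ2⟩ : ∃ ρ : Equiv.Perm R, ρ r1 = e k ∧ ρ r2 = r0 := by
      refine ⟨Equiv.swap (Equiv.swap r1 (e k) r2) r0 * Equiv.swap r1 (e k), ?_, ?_⟩
      · rw [Equiv.Perm.mul_apply, Equiv.swap_apply_left, Equiv.swap_apply_of_ne_of_ne _ hab]
        intro h
        apply hr12'
        have h5 := congrArg (Equiv.swap r1 (e k)) h
        rw [Equiv.swap_apply_right, Equiv.swap_apply_self] at h5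
        exact h5
      · rw [Equiv.Perm.mul_apply, Equiv.swap_apply_left]
    have e1 := hlog ρ
    have e2 := hlog (Equiv.swap (e k) r0 * ρ)
    have e3 : ∑ r, ((w (ρ r) : ℝ) - w ((Equiv.swap (e k) r0 * ρ) r)) * ℓ r = 0 := by
      simp only [sub_mul]
      rw [Finset.sum_sub_distrib, e1, e2, sub_zero]
    rw [← Finset.sum_subset (Finset.subset_univ ({r1, r2} : Finset R)), Finset.sum_pair hr12'] at e3
    · rw [Equiv.Perm.mul_apply, Equiv.Perm.mul_apply, hρ1, hρ2, Equiv.swap_apply_left,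
        Equiv.swap_apply_right] at e3
      have e4 : ((w (e k) : ℝ) - w r0) * (ℓ r1 - ℓ r2) = 0 := by linear_combination e3
      rcases mul_eq_zero.1 e4 with e5 | e5
      · apply hwa
        have e6 := sub_eq_zero.1 e5
        exact_mod_cast e6
      · apply hr12
        exact Real.log_injOn_pos (norm_pos_iff.2 (hne0 r1)) (norm_pos_iff.2 (hne0 r2))
          (sub_eq_zero.1 e5)
    · intro r _ hr
      rw [Finset.mem_insert, Finset.mem_singleton, not_or] at hr
      rw [Equiv.Perm.mul_apply, Equiv.swap_apply_of_ne_of_ne, sub_self, zero_mul]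
      · intro h0
        exact hr.1 (ρ.injective (h0.trans hρ1.symm))
      · intro h0
        exact hr.2 (ρ.injective (h0.trans hρ2.symm))
  -- conclusion
  have hrelγ : ∏ i, γ (π' i) ^ b i = 1 := by
    change ∏ i, (∏ r, u r ^ w (π' i r)) ^ b i = 1
    simp only [← Finset.prod_zpow, ← zpow_mul]
    rw [Finset.prod_comm]
    apply Finset.prod_eq_one
    intro r _
    rw [← prod_zpow_aux]
    have h1 := hrel r
    have h2 : ∑ i, w (π' i r) * b i = 0 := by
      rw [← h1]
      exact Finset.sum_congr rfl fun i _ => mul_comm _ _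
    rw [h2, zpow_zero]
  refine ⟨fun i => φ (((γ (π' i) : (𝓞 L)ˣ) : 𝓞 L) : L), fun i => ?_, fun i => ?_, fun i => ?_,
    fun i j => ?_, ?_, fun i m hm h0 => ?_⟩
  · exact (RingOfIntegers.isIntegral_coe _).map φ.toIntAlgHom
  · have h1 : (φ (((γ (π' i) : (𝓞 L)ˣ) : 𝓞 L) : L))⁻¹ =
        φ (((γ (π' i))⁻¹ : (𝓞 L)ˣ) : 𝓞 L) := by
      apply inv_eq_of_mul_eq_one_right
      rw [← map_mul, ← map_mul, ← Units.val_mul, mul_inv_cancel, Units.val_one, map_one, map_one]
    rw [h1]
    exact (RingOfIntegers.isIntegral_coe _).map φ.toIntAlgHom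
  · intro h0
    have h1 := (map_eq_zero φ).1 h0
    exact (γ (π' i)).ne_zero (RingOfIntegers.ext h1)
  · obtain ⟨g, hg1⟩ := hg ((π' j)⁻¹ * π' i)
    have h1 := hγ g _ (π' i) hg1
    have h2 : π' i * ((π' j)⁻¹ * π' i)⁻¹ = π' j := by group
    rw [h2] at h1
    change minpoly ℚ (φ.toRatAlgHom _) = minpoly ℚ (φ.toRatAlgHom _)
    rw [minpoly.algHom_eq φ.toRatAlgHom φ.toRatAlgHom.injective,
      minpoly.algHom_eq φ.toRatAlgHom φ.toRatAlgHom.injective, ← h1, minpoly.algEquiv_eq]
  · have h2 : Units.map ((φ.comp (algebraMap (𝓞 L) L) : 𝓞 L →+* ℂ) : 𝓞 L →* ℂ)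
        (∏ i, γ (π' i) ^ b i) = 1 := by rw [hrelγ, map_one]
    rw [map_prod] at h2
    have h3 := congrArg Units.val h2
    rw [Units.coe_prod, Units.val_one] at h3
    rw [← h3]
    apply Finset.prod_congr rfl
    intro i _
    rw [map_zpow, Units.val_zpow_eq_zpow_val]
    rfl
  · apply hnt m hm (π' i)
    apply Units.ext
    apply RingOfIntegers.ext
    apply φ.injective
    simpa using h0

end Pool.Agent.H448.SM
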