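import Mathlib
import Pool.Agent.H448.G.R_pool_sql_team_seeded_b0a926ef.R331.SM.Perm
import Pool.Agent.H448.SM.Suf
import Pool.Agent.H448.SM.Nec

set_option autoImplicit false

namespace Pool.Agent.H448.SM

open Finset Polynomial NumberField IsDedekindDomain

/-- The local conditions at the primes. -/
lemma nonarch {d : ℕ} (b : Fin d → ℤ) (p : HeightOneSpectrum (𝓞 ℚ)) (i : Fin d)
    (hne : ∃ j, j ≠ i) (h2 : ∀ q : ℤ, (∀ j, j ≠ i → q ∣ b j) → q ∣ b i) :
    ∃ j, j ≠ i ∧ p.valuation ℚ (b i : ℚ) ≤ p.valuation ℚ (b j : ℚ) := by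
  by_contra hcon
  push Not at hcon
  obtain ⟨j0, hj0⟩ := hne
  have hle : ∀ c : ℤ, p.valuation ℚ (c : ℚ) ≤ 1 := by
    intro c
    have h := p.valuation_le_one (K := ℚ) (c : 𝓞 ℚ)
    have h' : algebraMap (𝓞 ℚ) ℚ (c : 𝓞 ℚ) = c := map_intCast _ c
    rw [← h']
    exact h
  let I : Ideal ℤ :=
    { carrier := {x | p.valuation ℚ (x : ℚ) < p.valuation ℚ (b i : ℚ)}
      add_mem' := by
        intro x y hx hy
        have hx' : p.valuation ℚ (x : ℚ) < p.valuation ℚ (b i : ℚ) := hx
        have hy' : p.valuation ℚ (y : ℚ) < p.valuation ℚ (b i : ℚ) := hy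
        change p.valuation ℚ ((x + y : ℤ) : ℚ) < _
        rw [Int.cast_add]
        exact Valuation.map_add_lt _ hx' hy'
      zero_mem' := by
        change p.valuation ℚ ((0 : ℤ) : ℚ) < _
        rw [Int.cast_zero, map_zero]
        exact lt_of_le_of_lt zero_le (hcon j0 hj0)
      smul_mem' := by
        intro c x hx
        have hx' : p.valuation ℚ (x : ℚ) < p.valuation ℚ (b i : ℚ) := hx
        change p.valuation ℚ ((c • x : ℤ) : ℚ) < _
        rw [smul_eq_mul, Int.cast_mul, map_mul]
        exact lt_of_le_of_lt (mul_le_of_le_one_left' (hle c)) hx' }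
  have hmem : ∀ x : ℤ, x ∈ I ↔ p.valuation ℚ (x : ℚ) < p.valuation ℚ (b i : ℚ) := fun x => Iff.rfl
  obtain ⟨q, hq⟩ := (IsPrincipalIdealRing.principal I).1
  have hq' : ∀ x : ℤ, x ∈ I ↔ q ∣ x := by
    intro x
    rw [hq]
    exact Ideal.mem_span_singleton
  have h3 : q ∣ b i := by
    apply h2
    intro j hj
    rw [← hq', hmem]
    exact hcon j hj
  rw [← hq', hmem] at h3
  exact lt_irrefl _ h3

/-- Permutations solving the additive relation. -/
theorem exists_perm {d : ℕ} (b : Fin d → ℤ)
    (h1 : ∀ i, |b i| ≤ ∑ j ∈ univ.erase i, |b j|)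
    (h2 : ∀ (i : Fin d) (q : ℤ), (∀ j, j ≠ i → q ∣ b j) → q ∣ b i) :
    ∃ (N : ℕ) (π : Fin d → Equiv.Perm (Fin N)) (v : Fin N → ℤ), v ≠ 0 ∧
      ∀ k, ∑ i, b i * v (π i k) = 0 := by
  classical
  by_cases hs : ∀ i, |b i| < ∑ j ∈ univ.erase i, |b j|
  · obtain ⟨N, π, v, hv, hvr⟩ := Pool.Agent.R331.SM.perm_of_local (K := ℚ)
      (fun i => (b i : ℚ)) (by
        intro v i
        have hv : ∀ x : ℤ, v (x : ℚ) = |(x : ℝ)| := by
          intro x
          rw [Subsingleton.elim v Rat.infinitePlace, Rat.infinitePlace_apply]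
          simp
        simp only [hv]
        have h := hs i
        have h' : ((|b i| : ℤ) : ℝ) < ((∑ j ∈ univ.erase i, |b j| : ℤ) : ℝ) := by exact_mod_cast h
        push_cast at h'
        exact h') (by
        intro p i
        apply nonarch b p i _ (h2 i)
        have h := hs i
        have h' : 0 < ∑ j ∈ univ.erase i, |b j| := lt_of_le_of_lt (abs_nonneg _) h
        obtain ⟨j, hj⟩ := Finset.nonempty_of_sum_ne_zero h'.ne'
        exact ⟨j, Finset.ne_of_mem_erase hj⟩)
    -- clear denominators
    obtain ⟨D, hD0, hD⟩ : ∃ D : ℤ, D ≠ 0 ∧ ∀ k, ∃ m : ℤ, (m : ℚ) = D * v k := by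
      refine ⟨∏ k, ((v k).den : ℤ), ?_, ?_⟩
      · rw [Finset.prod_ne_zero_iff]
        intro k _
        exact_mod_cast (v k).den_nz
      · intro k
        refine ⟨(∏ k' ∈ univ.erase k, ((v k').den : ℤ)) * (v k).num, ?_⟩
        rw [← Finset.mul_prod_erase univ _ (mem_univ k)]
        push_cast
        have h1 : ((v k).den : ℚ) * v k = (v k).num := by
          rw [mul_comm]; exact Rat.mul_den_eq_num _
        rw [← h1]; ring
    choose n hn using hD
    refine ⟨N, π, n, ?_, ?_⟩
    · intro h0
      apply hv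
      funext k
      have h3 := hn k
      rw [h0, Pi.zero_apply, Int.cast_zero] at h3
      have hD' : (D : ℚ) ≠ 0 := by exact_mod_cast hD0
      exact (mul_eq_zero.1 h3.symm).resolve_left hD'
    · intro k
      have h3 := hvr k
      have h4 : ((∑ i, b i * n (π i k) : ℤ) : ℚ) = 0 := by
        push_cast
        simp only [hn]
        have : ∑ i, (b i : ℚ) * (D * v (π i k)) = D * ∑ i, (b i : ℚ) * v (π i k) := by
          rw [Finset.mul_sum]
          exact Finset.sum_congr rfl fun j _ => by ring
        rw [this, h3, mul_zero]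
      exact_mod_cast h4
  · push Not at hs
    obtain ⟨i0, hi0⟩ := hs
    have heq := le_antisymm (h1 i0) hi0
    -- signs
    let s : Fin d → Bool := fun i => if i = i0 then decide (0 ≤ b i) else decide (b i < 0)
    have hsum : ∑ i, b i * (if s i then 1 else -1) = 0 := by
      rw [← Finset.add_sum_erase univ _ (mem_univ i0)]
      have e1 : b i0 * (if s i0 then 1 else -1) = |b i0| := by
        by_cases h : 0 ≤ b i0
        · simp [s, h, abs_of_nonneg h]
        · push Not at h
          simp [s, not_le.2 h, abs_of_neg h]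
      have e2 : ∑ j ∈ univ.erase i0, b j * (if s j then 1 else -1) =
          - ∑ j ∈ univ.erase i0, |b j| := by
        rw [← Finset.sum_neg_distrib]
        apply Finset.sum_congr rfl
        intro j hj
        have hj' := Finset.ne_of_mem_erase hj
        by_cases h : b j < 0
        · simp [s, hj', h, abs_of_neg h]
        · simp [s, hj', h, abs_of_nonneg (not_lt.1 h)]
      rw [e1, e2, heq]; ring
    refine ⟨2, fun i => if s i then 1 else Equiv.swap 0 1, ![1, -1], ?_, ?_⟩
    · intro h0
      have := congrFun h0 0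
      simp at this
    · intro k
      fin_cases k
      · rw [← hsum]
        apply Finset.sum_congr rfl
        intro i _
        by_cases h : s i <;> simp [h]
      · have : ∑ i, b i * (![1, -1] : Fin 2 → ℤ) ((if s i then 1 else Equiv.swap 0 1 :
            Equiv.Perm (Fin 2)) 1) = - ∑ i, b i * (if s i then 1 else -1) := by
          rw [← Finset.sum_neg_distrib]
          apply Finset.sum_congr rfl
          intro i _
          by_cases h : s i <;> simp [h]
        exact this.trans (by rw [hsum, neg_zero])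

end Pool.Agent.H448.SM
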